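import Pool.Agent.Q220.TC.Main

set_option autoImplicit false

/-!
# Finite groups with two generators without short relations and with a relation of odd length
-/

namespace Pool.Agent.Q220.TC

section general

variable {V : Type} {L : Lab V}

lemma reachable_run (hL : L.Free 1) (l : List Let) (x : V) : L.graph.Reachable x (L.run l x) := by
  induction l with
  | nil => exact SimpleGraph.Reachable.refl _
  | cons s l ih => exact ih.trans (SimpleGraph.Adj.reachable ((Lab.adj_iff hL).2 ⟨s, rfl⟩))

lemma even_of {L : Lab V} (h : ∀ x y : V, ∃ l, L.run l x = y) {q : V} {o : List Let}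
    (ho : Odd o.length) (hq : L.run o q = q) (x y : V) :
    ∃ l : List Let, Even l.length ∧ L.run l x = y := by
  obtain ⟨l1, h1⟩ := h x q
  obtain ⟨l2, h2⟩ := h q y
  rcases Nat.even_or_odd (l2.length + l1.length) with he | he
  · exact ⟨l2 ++ l1, by simpa using he, by rw [Lab.run_append, h1, h2]⟩
  · refine ⟨l2 ++ (o ++ l1), ?_, by rw [Lab.run_append, Lab.run_append, h1, hq, h2]⟩
    have h3 := he.add_odd ho
    have h4 : (l2 ++ (o ++ l1)).length = l2.length + l1.length + o.length := by simp; omega
    rw [h4]; exact h3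

end general

section group

variable {G : Type} [Group G] (g : Fin 2 → G)

/-- the value of a letter -/
def letg (s : Let) : G := if s.2 then g s.1 else (g s.1)⁻¹

/-- the value of a word -/
def word : List Let → G
  | [] => 1
  | s :: l => letg g s * word l

lemma word_append (l m : List Let) : word g (l ++ m) = word g l * word g m := by
  induction l with
  | nil => simp [word]
  | cons s l ih => simp [word, ih, mul_assoc]

/-- the group acting on itself -/
def cay : Lab G := ⟨fun i => Equiv.mulLeft (g i)⟩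

lemma cay_act (s : Let) (x : G) : (cay g).act s x = letg g s * x := by
  rcases s with ⟨i, b⟩
  cases b <;> simp [Lab.act, cay, letg]

lemma cay_run (l : List Let) (x : G) : (cay g).run l x = word g l * x := by
  induction l with
  | nil => simp [word]
  | cons s l ih => rw [Lab.run_cons, ih, cay_act, word, mul_assoc]

/-- no short relations -/
def NoRel (K : ℕ) : Prop := ∀ l : List Let, Red l → l ≠ [] → l.length ≤ K → word g l ≠ 1

lemma cay_free {K : ℕ} (h : NoRel g K) : (cay g).Free K := by
  intro l h1 h2 h3 x hx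
  rw [cay_run] at hx
  exact h l h1 h2 h3 (by simpa using hx)

/-- every element is the value of a word -/
def Gen : Prop := ∀ x : G, ∃ l, word g l = x

lemma cay_trans (h : Gen g) (x y : G) : ∃ l, (cay g).run l x = y := by
  obtain ⟨l, hl⟩ := h (y * x⁻¹)
  exact ⟨l, by rw [cay_run, hl]; simp⟩

lemma word_replicate (i : Fin 2) (n : ℕ) : word g (List.replicate n (i, true)) = g i ^ n := by
  induction n with
  | zero => simp [word]
  | succ n ih => rw [List.replicate_succ, word, ih, pow_succ']; simp [letg]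

lemma cay_cls {K n : ℕ} (h : NoRel g K) (hg : Gen g) (hn : Odd n) (hgn : g 0 ^ n = 1) :
    Cls K (cay g) := by
  refine ⟨cay_free g h, ?_, ⟨1⟩⟩
  refine even_of (cay_trans g hg) (q := 1) (o := List.replicate n (0, true)) (by simpa using hn) ?_
  rw [cay_run, word_replicate, hgn, one_mul]

lemma cay_connected {K : ℕ} (h : NoRel g K) (hK : 1 ≤ K) (hg : Gen g) :
    (cay g).graph.Connected := by
  have : Nonempty G := ⟨1⟩
  refine ⟨fun x y => ?_⟩
  obtain ⟨l, rfl⟩ := cay_trans g hg x y
  exact reachable_run ((cay_free g h).mono hK) l x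

lemma cay_two [Finite G] {K : ℕ} (h : NoRel g K) (hK : 1 ≤ K) (hg : Gen g) :
    TwoConnected (cay g).graph := by
  obtain ⟨v, hv⟩ := (cay_connected g h hK hg).exists_preconnected_induce_compl_singleton_of_finite
  have hF := (cay_free g h).mono hK
  intro z
  set c := v⁻¹ * z with hc
  have key : ∀ x y, (cay g).graph.Adj x y → (cay g).graph.Adj (x * c) (y * c) := by
    intro x y hxy
    obtain ⟨s, hs⟩ := (Lab.adj_iff hF).1 hxy
    refine (Lab.adj_iff hF).2 ⟨s, ?_⟩
    rw [cay_act] at hs ⊢
    rw [← hs, mul_assoc]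
  let f : (cay g).graph.induce ({v}ᶜ : Set G) →g (cay g).graph.induce ({z}ᶜ : Set G) :=
    { toFun := fun x => ⟨x.1 * c, by
        intro hx
        apply x.2
        have : x.1 * c = z := hx
        show x.1 = v
        rw [hc] at this
        calc x.1 = (x.1 * (v⁻¹ * z)) * (z⁻¹ * v) := by group
          _ = v := by rw [this]; group⟩
      map_rel' := fun {x y} hxy => key _ _ hxy }
  rintro ⟨x, hx⟩ ⟨y, hy⟩
  have hx' : x * c⁻¹ ∈ ({v}ᶜ : Set G) := by
    intro h1
    apply hx
    have : x * c⁻¹ = v := h1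
    show x = z
    calc x = (x * c⁻¹) * c := by group
      _ = z := by rw [this, hc]; group
  have hy' : y * c⁻¹ ∈ ({v}ᶜ : Set G) := by
    intro h1
    apply hy
    have : y * c⁻¹ = v := h1
    show y = z
    calc y = (y * c⁻¹) * c := by group
      _ = z := by rw [this, hc]; group
  have h1 := (hv ⟨x * c⁻¹, hx'⟩ ⟨y * c⁻¹, hy'⟩).map f
  have h2 : f ⟨x * c⁻¹, hx'⟩ = ⟨x, hx⟩ := Subtype.ext (by show x * c⁻¹ * c = x; group)
  have h3 : f ⟨y * c⁻¹, hy'⟩ = ⟨y, hy⟩ := Subtype.ext (by show y * c⁻¹ * c = y; group)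
  rwa [h2, h3] at h1

end group

/-! ### the concrete group -/

section concrete

/-- the sign of a letter -/
def sg (b : Bool) : ℤ := if b then 1 else -1

/-- the action of a letter on integer vectors -/
def zstep (s : Let) (v : ℤ × ℤ) : ℤ × ℤ :=
  if s.1 = 0 then (v.1 + 2 * sg s.2 * v.2, v.2) else (v.1, v.2 + 2 * sg s.2 * v.1)

/-- the action of a word on integer vectors -/
def zrun : List Let → ℤ × ℤ → ℤ × ℤ
  | [], v => v
  | s :: l, v => zstep s (zrun l v)

/-- the invariant after the letter `s` -/
def Inv (s : Let) (v : ℤ × ℤ) : Prop :=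
  if s.1 = 0 then v.2 ≠ 0 ∧ v.2 ^ 2 < sg s.2 * (v.1 * v.2) else
    v.1 ≠ 0 ∧ v.1 ^ 2 < sg s.2 * (v.1 * v.2)

lemma sg_cases (b : Bool) : sg b = 1 ∨ sg b = -1 := by cases b <;> simp [sg]

lemma key_ineq {x y e : ℤ} (he : e = 1 ∨ e = -1) (hx : x ≠ 0) (h : x ^ 2 < e * (x * y)) :
    y ≠ 0 ∧ -(x * y) < y ^ 2 ∧ x * y < y ^ 2 := by
  have h0 : 0 < |x| := abs_pos.2 hx
  have h1 : |x| * |x| < |x| * |y| := by
    have h2 : e * (x * y) ≤ |x| * |y| := by
      rw [← abs_mul]
      rcases he with rfl | rfl
      · simpa using le_abs_self (x * y)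
      · simpa using neg_le_abs (x * y)
    nlinarith [sq_abs x]
  have h2 : |x| < |y| := lt_of_mul_lt_mul_left h1 h0.le
  have h3 : |x| * |y| < y ^ 2 := by
    nlinarith [sq_abs y]
  have h4 : |x * y| < y ^ 2 := by rwa [abs_mul]
  refine ⟨?_, by linarith [neg_le_abs (x * y)], by linarith [le_abs_self (x * y)]⟩
  rintro rfl
  simp at h2
  linarith

lemma zrun_inv (l : List Let) (s : Let) (h : Red (s :: l)) :
    ∃ e : ℤ × ℤ, (e = (0, 1) ∨ e = (1, 0)) ∧ Inv s (zrun (s :: l) e) ∧
      |(zrun (s :: l) e).1| ≤ 3 ^ (l.length + 1) ∧ |(zrun (s :: l) e).2| ≤ 3 ^ (l.length + 1) := by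
  induction l generalizing s with
  | nil =>
    rcases s with ⟨i, b⟩
    have hi : i = 0 ∨ i = 1 := by omega
    rcases hi with rfl | rfl
    · refine ⟨(0, 1), Or.inl rfl, ?_⟩
      cases b <;> simp [zrun, zstep, Inv, sg]
    · refine ⟨(1, 0), Or.inr rfl, ?_⟩
      cases b <;> simp [zrun, zstep, Inv, sg]
  | cons t l ih =>
    obtain ⟨e, he, h1, h2, h3⟩ := ih t h.2
    refine ⟨e, he, ?_⟩
    set v := zrun (t :: l) e with hv
    have h4 : zrun (s :: t :: l) e = zstep s v := rfl
    rw [h4]
    have hst : s ≠ inv t := h.1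
    clear_value v
    rcases v with ⟨x, y⟩
    rcases s with ⟨i, b⟩
    rcases t with ⟨j, c⟩
    have hb := sg_cases b
    have hc := sg_cases c
    have hpow : (3 : ℤ) ^ ((((j, c) : Let) :: l).length + 1) = 3 * 3 ^ (l.length + 1) := by
      rw [List.length_cons, pow_succ]; ring
    rw [hpow]
    simp only at h2 h3
    set P : ℤ := 3 ^ (l.length + 1) with hP
    have habs : ∀ u w : ℤ, |u| ≤ P → |w| ≤ P → |u + 2 * sg b * w| ≤ 3 * P := by
      intro u w hu hw
      have := abs_add_le u (2 * sg b * w)
      have h5 : |2 * sg b * w| = 2 * |w| := by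
        rw [abs_mul, abs_mul]
        rcases hb with hb | hb <;> rw [hb] <;> norm_num
      linarith
    have hPpos : 0 ≤ P := by positivity
    have hi : i = 0 ∨ i = 1 := by omega
    have hj : j = 0 ∨ j = 1 := by omega
    have hsq : sg b * sg b = 1 := by rcases hb with hb | hb <;> rw [hb] <;> norm_num
    rcases hi with rfl | rfl
    · refine ⟨?_, habs x y h2 h3, by simpa [zstep] using h3.trans (by linarith)⟩
      rcases hj with rfl | rfl
      · -- the same type, so the same sign
        have hbc : b = c := by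
          by_contra hne
          apply hst
          cases b <;> cases c <;> simp_all [inv]
        subst hbc
        simp only [Inv, if_true, zstep] at h1 ⊢
        refine ⟨h1.1, ?_⟩
        have : sg b * ((x + 2 * sg b * y) * y) = sg b * (x * y) + 2 * (sg b * sg b) * y ^ 2 := by
          ring
        rw [this, hsq]
        nlinarith [sq_nonneg y]
      · simp only [Inv, if_true, zstep, one_ne_zero, if_false] at h1 ⊢
        obtain ⟨h5, h6, h7⟩ := key_ineq hc h1.1 h1.2
        refine ⟨h5, ?_⟩
        have : sg b * ((x + 2 * sg b * y) * y) = sg b * (x * y) + 2 * (sg b * sg b) * y ^ 2 := by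
          ring
        rw [this, hsq]
        rcases hb with hb | hb <;> rw [hb] <;> nlinarith
    · refine ⟨?_, by simpa [zstep] using h2.trans (by linarith), habs y x h3 h2⟩
      rcases hj with rfl | rfl
      · simp only [Inv, if_true, zstep, one_ne_zero, if_false] at h1 ⊢
        obtain ⟨h5, h6, h7⟩ := key_ineq (x := y) (y := x) hc h1.1 (by rw [mul_comm y x]; exact h1.2)
        refine ⟨h5, ?_⟩
        have : sg b * (x * (y + 2 * sg b * x)) = sg b * (y * x) + 2 * (sg b * sg b) * x ^ 2 := by
          ring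
        rw [this, hsq]
        rcases hb with hb | hb <;> rw [hb] <;> nlinarith
      · have hbc : b = c := by
          by_contra hne
          apply hst
          cases b <;> cases c <;> simp_all [inv]
        subst hbc
        simp only [Inv, zstep, one_ne_zero, if_false] at h1 ⊢
        refine ⟨h1.1, ?_⟩
        have : sg b * (x * (y + 2 * sg b * x)) = sg b * (x * y) + 2 * (sg b * sg b) * x ^ 2 := by
          ring
        rw [this, hsq]
        nlinarith [sq_nonneg x]

lemma Inv.ne {s : Let} {v : ℤ × ℤ} (h : Inv s v) : v.1 ≠ 0 ∧ v.2 ≠ 0 := by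
  unfold Inv at h
  split_ifs at h with h1
  · refine ⟨?_, h.1⟩
    intro h2
    have h3 := h.2
    rw [h2] at h3
    simp at h3
    nlinarith [sq_nonneg v.2]
  · refine ⟨h.1, ?_⟩
    intro h2
    have h3 := h.2
    rw [h2] at h3
    simp at h3
    nlinarith [sq_nonneg v.1]

variable (p : ℕ)

/-- the two generators -/
def gen (i : Fin 2) : Equiv.Perm (ZMod p × ZMod p) where
  toFun v := if i = 0 then (v.1 + 2 * v.2, v.2) else (v.1, v.2 + 2 * v.1)
  invFun v := if i = 0 then (v.1 - 2 * v.2, v.2) else (v.1, v.2 - 2 * v.1)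
  left_inv v := by split_ifs <;> simp
  right_inv v := by split_ifs <;> simp

/-- reduction of a vector -/
def castv (v : ℤ × ℤ) : ZMod p × ZMod p := ((v.1 : ZMod p), (v.2 : ZMod p))

lemma letg_cast (s : Let) (v : ℤ × ℤ) : letg (gen p) s (castv p v) = castv p (zstep s v) := by
  rcases s with ⟨i, b⟩
  have hi : i = 0 ∨ i = 1 := by omega
  cases b
  · show (gen p i).symm _ = _
    rcases hi with rfl | rfl
    · simp [gen, castv, zstep, sg, sub_eq_add_neg]
    · simp [gen, castv, zstep, sg, sub_eq_add_neg]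
  · show (gen p i) _ = _
    rcases hi with rfl | rfl
    · simp [gen, castv, zstep, sg]
    · simp [gen, castv, zstep, sg]

lemma word_cast (l : List Let) (v : ℤ × ℤ) : word (gen p) l (castv p v) = castv p (zrun l v) := by
  induction l with
  | nil => rfl
  | cons s l ih =>
    rw [word, Equiv.Perm.mul_apply, ih, letg_cast]
    rfl

lemma noRel_gen {K : ℕ} (hp : 3 ^ K < p) : NoRel (gen p) K := by
  intro l h1 h2 h3 h4
  cases l with
  | nil => exact h2 rfl
  | cons s l =>
    obtain ⟨e, he, h5, h6, h7⟩ := zrun_inv l s h1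
    have h8 := word_cast p (s :: l) e
    rw [h4, Equiv.Perm.one_apply] at h8
    have hne := h5.ne
    have hpow : (3 : ℤ) ^ (l.length + 1) < p := by
      have h9 : (3 : ℕ) ^ (l.length + 1) ≤ 3 ^ K := Nat.pow_le_pow_right (by norm_num) h3
      exact_mod_cast lt_of_le_of_lt h9 hp
    have hz : ∀ u : ℤ, u ≠ 0 → |u| ≤ 3 ^ (l.length + 1) → (u : ZMod p) ≠ 0 := by
      intro u hu hu' h9
      rw [ZMod.intCast_zmod_eq_zero_iff_dvd] at h9
      have h10 := Int.le_of_dvd (abs_pos.2 hu) ((dvd_abs _ _).2 h9)
      linarith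
    rcases he with rfl | rfl
    · have := congrArg Prod.fst h8
      simp only [castv] at this
      exact hz _ hne.1 h6 (by rw [← this]; simp)
    · have := congrArg Prod.snd h8
      simp only [castv] at this
      exact hz _ hne.2 h7 (by rw [← this]; simp)

lemma gen_pow : gen p 0 ^ p = 1 := by
  have h : ∀ (n : ℕ) (v : ZMod p × ZMod p), (gen p 0 ^ n) v = (v.1 + 2 * n * v.2, v.2) := by
    intro n
    induction n with
    | zero => intro v; simp
    | succ n ih =>
      intro v
      rw [pow_succ', Equiv.Perm.mul_apply, ih]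
      simp only [gen, Equiv.coe_fn_mk, if_true]
      refine Prod.ext ?_ rfl
      push_cast
      ring
  ext v
  · rw [h]; simp
  · rw [h]; simp

/-- the group generated by the two permutations -/
def Gam : Subgroup (Equiv.Perm (ZMod p × ZMod p)) := Subgroup.closure (Set.range (gen p))

/-- the generators of the group -/
def ggen (i : Fin 2) : Gam p := ⟨gen p i, Subgroup.subset_closure ⟨i, rfl⟩⟩

lemma coe_word (l : List Let) : ((word (ggen p) l : Gam p) : Equiv.Perm (ZMod p × ZMod p)) =
    word (gen p) l := by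
  induction l with
  | nil => rfl
  | cons s l ih =>
    rw [word, word, Subgroup.coe_mul, ih]
    congr 1
    rcases s with ⟨i, b⟩
    cases b <;> simp [letg, ggen]

lemma noRel_ggen {K : ℕ} (hp : 3 ^ K < p) : NoRel (ggen p) K := by
  intro l h1 h2 h3 h4
  refine noRel_gen p hp l h1 h2 h3 ?_
  rw [← coe_word, h4]; rfl

lemma word_inv {G : Type} [Group G] (g : Fin 2 → G) (l : List Let) :
    word g (winv l) = (word g l)⁻¹ := by
  induction l with
  | nil => simp [word]
  | cons s l ih =>
    rw [winv_cons, word_append, ih]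
    show _ = (letg g s * word g l)⁻¹
    rw [mul_inv_rev]
    congr 1
    rcases s with ⟨i, b⟩
    cases b <;> simp [letg, inv, word]

lemma gen_ggen : Gen (ggen p) := by
  rintro ⟨x, hx⟩
  suffices h : ∃ l, word (gen p) l = x by
    obtain ⟨l, hl⟩ := h
    exact ⟨l, Subtype.ext (by rw [coe_word, hl])⟩
  induction hx using Subgroup.closure_induction with
  | mem y hy =>
    obtain ⟨i, rfl⟩ := hy
    exact ⟨[(i, true)], by simp [word, letg]⟩
  | one => exact ⟨[], rfl⟩
  | mul y z _ _ h1 h2 =>
    obtain ⟨l, rfl⟩ := h1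
    obtain ⟨m, rfl⟩ := h2
    exact ⟨l ++ m, word_append _ _ _⟩
  | inv y _ h1 =>
    obtain ⟨l, rfl⟩ := h1
    exact ⟨winv l, word_inv _ _⟩

lemma ggen_pow : ggen p 0 ^ p = 1 := Subtype.ext (by simpa [ggen] using gen_pow p)

end concrete

end Pool.Agent.Q220.TC
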