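import Mathlib

set_option autoImplicit false

/-!
# Transitive-closure logic without parameters: syntax and semantics
-/

namespace Pool.Agent.Q220.TC

/-- Formulas of the logic `TC^1_0` over graphs with free variables among `v_0, ..., v_{n-1}`. In
`tc φ i j` (read `[TC_{x,y} φ(x,y)](v_i, v_j)`) the formula `φ` has no free variables besides the two
variables `x = v_0` and `y = v_1` which are bound by the operator; `φ` may contain the operator. -/
inductive Fml : ℕ → Type
  | eq {n : ℕ} (i j : Fin n) : Fml n
  | adj {n : ℕ} (i j : Fin n) : Fml n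
  | falsum {n : ℕ} : Fml n
  | imp {n : ℕ} (φ ψ : Fml n) : Fml n
  | all {n : ℕ} (φ : Fml (n + 1)) : Fml n
  | tc {n : ℕ} (φ : Fml 2) (i j : Fin n) : Fml n

/-- `Sat G φ p`: the formula `φ` holds in the graph `G` under the assignment `p`. In `all φ` the
quantified variable is `v_0`, the other variables are shifted by one. -/
def Sat {V : Type} (G : SimpleGraph V) : {n : ℕ} → Fml n → (Fin n → V) → Prop
  | _, .eq i j, p => p i = p j
  | _, .adj i j, p => G.Adj (p i) (p j)
  | _, .falsum, _ => False
  | _, .imp φ ψ, p => Sat G φ p → Sat G ψ p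
  | _, .all φ, p => ∀ b : V, Sat G φ (Fin.cons b p)
  | _, .tc φ i j, p => Relation.TransGen (fun x y : V => Sat G φ ![x, y]) (p i) (p j)

/-- The graph is 2-connected: it stays connected when any vertex is deleted. -/
def TwoConnected {V : Type} (G : SimpleGraph V) : Prop :=
  ∀ z : V, (G.induce {z}ᶜ).Preconnected

/-! ### letters and words -/

/-- the letters `a_0, a_1` and their inverses -/
abbrev Let := Fin 2 × Bool

/-- the inverse letter -/
def inv (s : Let) : Let := (s.1, !s.2)

@[simp] lemma inv_inv (s : Let) : inv (inv s) = s := by simp [inv]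

lemma inv_ne (s : Let) : inv s ≠ s := by
  intro h
  have := congrArg Prod.snd h
  simp [inv] at this

lemma inv_injective : Function.Injective inv := fun s t h => by
  rw [← inv_inv s, h, inv_inv]

/-- reduced words; the head of the list is the letter which is applied last -/
def Red : List Let → Prop
  | [] => True
  | [_] => True
  | s :: t :: l => s ≠ inv t ∧ Red (t :: l)

lemma Red.tail {s : Let} {l : List Let} (h : Red (s :: l)) : Red l := by
  cases l with
  | nil => trivial
  | cons t l => exact h.2

lemma red_cons_iff {s : Let} {l : List Let} :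
    Red (s :: l) ↔ Red l ∧ ∀ t m, l = t :: m → s ≠ inv t := by
  cases l with
  | nil => simp [Red]
  | cons t l =>
    simp only [Red, List.cons.injEq]
    constructor
    · rintro ⟨h1, h2⟩
      refine ⟨h2, ?_⟩
      rintro _ _ ⟨rfl, rfl⟩
      exact h1
    · rintro ⟨h1, h2⟩
      exact ⟨h2 t l ⟨rfl, rfl⟩, h1⟩

/-- a set with two permutations -/
structure Lab (V : Type) where
  /-- the permutations -/
  a : Fin 2 → Equiv.Perm V

variable {V : Type}

/-- the action of a letter -/
def Lab.act (L : Lab V) (s : Let) : V → V := if s.2 then L.a s.1 else (L.a s.1).symm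

@[simp] lemma Lab.act_inv_act (L : Lab V) (s : Let) (v : V) : L.act (inv s) (L.act s v) = v := by
  rcases s with ⟨i, b⟩
  cases b <;> simp [Lab.act, inv]

@[simp] lemma Lab.act_act_inv (L : Lab V) (s : Let) (v : V) : L.act s (L.act (inv s) v) = v := by
  have := L.act_inv_act (inv s) v
  rwa [inv_inv] at this

lemma Lab.act_injective (L : Lab V) (s : Let) : Function.Injective (L.act s) := fun u v h => by
  rw [← L.act_inv_act s u, h, L.act_inv_act]

/-- the action of a word -/
def Lab.run (L : Lab V) : List Let → V → V
  | [], v => v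
  | s :: l, v => L.act s (L.run l v)

@[simp] lemma Lab.run_nil (L : Lab V) (v : V) : L.run [] v = v := rfl
@[simp] lemma Lab.run_cons (L : Lab V) (s : Let) (l : List Let) (v : V) :
    L.run (s :: l) v = L.act s (L.run l v) := rfl

lemma Lab.run_append (L : Lab V) (l m : List Let) (v : V) :
    L.run (l ++ m) v = L.run l (L.run m v) := by
  induction l with
  | nil => rfl
  | cons s l ih => simp [ih]

/-- no nonempty reduced word of length at most `g` fixes a point -/
def Lab.Free (L : Lab V) (g : ℕ) : Prop :=
  ∀ l : List Let, Red l → l ≠ [] → l.length ≤ g → ∀ v : V, L.run l v ≠ v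

lemma Lab.Free.mono {L : Lab V} {g h : ℕ} (hL : L.Free h) (hgh : g ≤ h) : L.Free g :=
  fun l h1 h2 h3 => hL l h1 h2 (h3.trans hgh)

/-- the graph of the action -/
def Lab.graph (L : Lab V) : SimpleGraph V where
  Adj u v := u ≠ v ∧ ∃ s : Let, L.act s u = v
  symm := ⟨by
    rintro u v ⟨h, s, rfl⟩
    exact ⟨h.symm, inv s, by simp⟩⟩
  loopless := ⟨fun u h => h.1 rfl⟩

lemma Lab.adj_iff {L : Lab V} (hL : L.Free 1) {u v : V} :
    L.graph.Adj u v ↔ ∃ s : Let, L.act s u = v := by
  constructor
  · exact fun h => h.2
  · rintro ⟨s, rfl⟩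
    exact ⟨fun h => hL [s] trivial (by simp) (by simp) u h.symm, s, rfl⟩

/-- the distance is at most `r` -/
def Lab.Near (L : Lab V) (r : ℕ) (u v : V) : Prop := ∃ l : List Let, l.length ≤ r ∧ L.run l u = v

lemma Lab.Near.mono {L : Lab V} {r s : ℕ} {u v : V} (h : L.Near r u v) (hrs : r ≤ s) :
    L.Near s u v := by
  obtain ⟨l, h1, h2⟩ := h
  exact ⟨l, h1.trans hrs, h2⟩

lemma Lab.Near.refl (L : Lab V) (r : ℕ) (u : V) : L.Near r u u := ⟨[], by simp, rfl⟩

/-- the inverse word -/
def winv (l : List Let) : List Let := (l.map inv).reverse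

@[simp] lemma winv_nil : winv [] = [] := rfl

lemma winv_cons (s : Let) (l : List Let) : winv (s :: l) = winv l ++ [inv s] := by
  simp [winv]

@[simp] lemma winv_length (l : List Let) : (winv l).length = l.length := by simp [winv]

@[simp] lemma Lab.run_winv_run (L : Lab V) (l : List Let) (v : V) : L.run (winv l) (L.run l v) = v := by
  induction l with
  | nil => rfl
  | cons s l ih => rw [winv_cons, Lab.run_append]; simp [ih]

lemma Lab.Near.symm {L : Lab V} {r : ℕ} {u v : V} (h : L.Near r u v) : L.Near r v u := by
  obtain ⟨l, h1, rfl⟩ := h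
  exact ⟨winv l, by simpa using h1, by simp⟩

lemma Lab.Near.trans {L : Lab V} {r s : ℕ} {u v w : V} (h : L.Near r u v) (h' : L.Near s v w) :
    L.Near (r + s) u w := by
  obtain ⟨l, h1, rfl⟩ := h
  obtain ⟨m, h2, rfl⟩ := h'
  exact ⟨m ++ l, by simp; omega, by rw [Lab.run_append]⟩

/-- every word can be reduced -/
lemma Lab.exists_red (L : Lab V) (l : List Let) (v : V) :
    ∃ m : List Let, Red m ∧ m.length ≤ l.length ∧ L.run m v = L.run l v := by
  induction l with
  | nil => exact ⟨[], trivial, le_rfl, rfl⟩
  | cons s l ih =>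
    obtain ⟨m, h1, h2, h3⟩ := ih
    by_cases h : ∃ t k, m = t :: k ∧ s = inv t
    · obtain ⟨t, k, rfl, rfl⟩ := h
      refine ⟨k, h1.tail, ?_, ?_⟩
      · simp at h2 ⊢; omega
      · rw [Lab.run_cons, ← h3, Lab.run_cons]; simp
    · refine ⟨s :: m, ?_, by simpa using h2, by simp [h3]⟩
      rw [red_cons_iff]
      exact ⟨h1, fun t k hk hs => h ⟨t, k, hk, hs⟩⟩

lemma Lab.Near.red {L : Lab V} {r : ℕ} {u v : V} (h : L.Near r u v) :
    ∃ l : List Let, Red l ∧ l.length ≤ r ∧ L.run l u = v := by
  obtain ⟨l, h1, rfl⟩ := h
  obtain ⟨m, h2, h3, h4⟩ := L.exists_red l u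
  exact ⟨m, h2, h3.trans h1, h4⟩

/-- if `l` and `m` are reduced and do not cancel, `l ++ m` is reduced -/
lemma red_append {l m : List Let} (hl : Red l) (hm : Red m)
    (h : ∀ s k t n, l = k ++ [s] → m = t :: n → s ≠ inv t) : Red (l ++ m) := by
  induction l with
  | nil => simpa using hm
  | cons s l ih =>
    rw [List.cons_append, red_cons_iff]
    refine ⟨ih hl.tail (fun s' k t n h1 h2 => h s' (s :: k) t n (by simp [h1]) h2), ?_⟩
    intro t n h1
    cases l with
    | nil => exact h s [] t n rfl (by simpa using h1)
    | cons c l =>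
      simp only [List.cons_append, List.cons.injEq] at h1
      obtain ⟨rfl, -⟩ := h1
      exact hl.1

lemma red_of_append_left {l m : List Let} (h : Red (l ++ m)) : Red l := by
  induction l with
  | nil => trivial
  | cons s l ih =>
    rw [List.cons_append, red_cons_iff] at h
    rw [red_cons_iff]
    refine ⟨ih h.1, ?_⟩
    rintro t k rfl
    exact h.2 t (k ++ m) (by simp)

lemma red_of_append_right {l m : List Let} (h : Red (l ++ m)) : Red m := by
  induction l with
  | nil => simpa using h
  | cons s l ih => exact ih h.tail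

lemma red_middle {k l : List Let} {s t : Let} (h : Red (k ++ s :: t :: l)) : s ≠ inv t :=
  (red_of_append_right h).1

lemma red_winv {l : List Let} (h : Red l) : Red (winv l) := by
  induction l with
  | nil => trivial
  | cons s l ih =>
    rw [winv_cons]
    refine red_append (ih h.tail) trivial ?_
    intro s' k t n h1 h2
    simp only [List.cons.injEq] at h2
    obtain ⟨rfl, -⟩ := h2
    cases l with
    | nil => simp at h1
    | cons c l =>
      rw [winv_cons] at h1
      have h3 := List.append_inj' h1 rfl
      simp only [List.cons.injEq, and_true] at h3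
      rw [← h3.2, inv_inv]
      exact fun h4 => h.1 h4.symm

/-- uniqueness of short reduced words -/
lemma Lab.Free.unique {L : Lab V} {g : ℕ} (hL : L.Free g) {l m : List Let} (hl : Red l) (hm : Red m)
    (hg : l.length + m.length ≤ g) {v : V} (h : L.run l v = L.run m v) : l = m := by
  induction l generalizing m with
  | nil =>
    by_contra hne
    exact hL m hm (fun h' => hne h'.symm) (by simpa using hg) v h.symm
  | cons s l ih =>
    cases m with
    | nil => exact absurd h (hL (s :: l) hl (by simp) (by simpa using hg) v)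
    | cons t m =>
      by_cases hst : s = t
      · subst hst
        rw [ih hl.tail hm.tail (by simp at hg; omega) (L.act_injective s h)]
      · exfalso
        have h1 : L.run (winv (t :: m) ++ (s :: l)) v = v := by
          rw [Lab.run_append, h, Lab.run_winv_run]
        refine hL _ ?_ (by simp) ?_ v h1
        · refine red_append (red_winv hm) hl ?_
          intro s' k t' n h2 h3
          simp only [List.cons.injEq] at h3
          obtain ⟨rfl, -⟩ := h3
          rw [winv_cons] at h2
          have h4 := List.append_inj' h2 rfl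
          simp only [List.cons.injEq, and_true] at h4
          rw [← h4.2]
          exact fun h5 => hst (inv_injective h5).symm
        · simp at hg ⊢; omega

end Pool.Agent.Q220.TC
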