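import Pool.Agent.Q220.TC.Cayley

set_option autoImplicit false

/-!
# Two copies of a Cayley graph glued at a new vertex
-/

namespace Pool.Agent.Q220.TC

variable {G : Type} [Group G] (g : Fin 2 → G)

/-- the copy in which an edge with the label `i` is replaced by a path through the new vertex -/
def flag (i : Fin 2) : Bool := decide (i = 1)

lemma flag_inj {i j : Fin 2} (h : flag i = flag j) : i = j := by
  revert i j; decide

open Classical in
/-- two copies of the group and a new vertex `none` -/
noncomputable def glued : Lab (Option (Bool × G)) :=
  ⟨fun i => (Equiv.swap (some (flag i, (1 : G))) none).trans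
    (Equiv.optionCongr (Equiv.prodCongr (Equiv.refl Bool) (Equiv.mulLeft (g i))))⟩

lemma glued_none (s : Let) : (glued g).act s none = some (flag s.1, if s.2 then g s.1 else 1) := by
  rcases s with ⟨i, b⟩
  cases b
  · show ((glued g).a i).symm none = _
    rw [Equiv.symm_apply_eq]
    simp [glued]
  · show ((glued g).a i) none = _
    simp [glued]

lemma glued_some (s : Let) (b : Bool) (x : G) :
    (b = flag s.1 ∧ x = (if s.2 then 1 else g s.1) ∧ (glued g).act s (some (b, x)) = none) ∨
    (¬ (b = flag s.1 ∧ x = (if s.2 then 1 else g s.1)) ∧
      (glued g).act s (some (b, x)) = some (b, letg g s * x)) := by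
  classical
  rcases s with ⟨i, c⟩
  cases c
  · by_cases h : b = flag i ∧ x = g i
    · left
      obtain ⟨rfl, rfl⟩ := h
      refine ⟨rfl, by simp, ?_⟩
      show ((glued g).a i).symm _ = _
      rw [Equiv.symm_apply_eq]
      simp [glued]
    · right
      refine ⟨by simpa using h, ?_⟩
      show ((glued g).a i).symm _ = _
      rw [Equiv.symm_apply_eq]
      have h1 : (some (b, letg g (i, false) * x) : Option (Bool × G)) ≠ some (flag i, 1) := by
        intro h2
        simp only [Option.some.injEq, Prod.mk.injEq] at h2
        apply h
        refine ⟨h2.1, ?_⟩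
        have h3 := h2.2
        simp only [letg, Bool.false_eq_true, if_false] at h3
        calc x = g i * ((g i)⁻¹ * x) := by group
          _ = g i := by rw [h3, mul_one]
      show _ = Equiv.optionCongr _ (Equiv.swap _ _ _)
      rw [Equiv.swap_apply_of_ne_of_ne h1 (by simp)]
      simp [letg]
  · by_cases h : b = flag i ∧ x = 1
    · left
      obtain ⟨rfl, rfl⟩ := h
      refine ⟨rfl, by simp, ?_⟩
      show ((glued g).a i) _ = _
      simp [glued]
    · right
      refine ⟨by simpa using h, ?_⟩
      have h1 : (some (b, x) : Option (Bool × G)) ≠ some (flag i, 1) := by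
        intro h2
        simp only [Option.some.injEq, Prod.mk.injEq] at h2
        exact h h2
      show Equiv.optionCongr _ (Equiv.swap _ _ _) = _
      rw [Equiv.swap_apply_of_ne_of_ne h1 (by simp)]
      simp [letg]

/-- a walk which avoids the new vertex stays in its copy -/
lemma glued_run (l : List Let) (b : Bool) (x : G)
    (h : ∀ k m, l = k ++ m → (glued g).run m (some (b, x)) ≠ none) :
    (glued g).run l (some (b, x)) = some (b, word g l * x) := by
  induction l with
  | nil => simp [word]
  | cons s l ih =>
    have h1 := ih (fun k m hkm => h (s :: k) m (by simp [hkm]))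
    have h2 := h [] (s :: l) rfl
    rw [Lab.run_cons, h1] at h2 ⊢
    rcases glued_some g s b (word g l * x) with h3 | h3
    · exact absurd h3.2.2 h2
    · rw [h3.2, word, mul_assoc]

/-- There is no short closed reduced walk at the new vertex, if there is no shorter one. -/
lemma glued_at_none {K : ℕ} (hG : NoRel g K) (l : List Let) (hl : Red l) (hne : l ≠ [])
    (hK : l.length ≤ K)
    (ih : ∀ m, Red m → m ≠ [] → m.length < l.length → ∀ v, (glued g).run m v ≠ v) :
    (glued g).run l none ≠ none := by
  intro h
  -- the first step
  obtain ⟨l0, s, rfl⟩ : ∃ l0 s, l = l0 ++ [s] := by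
    rcases List.eq_nil_or_concat l with h1 | ⟨a, b, h1⟩
    · exact absurd h1 hne
    · exact ⟨a, b, by simpa using h1⟩
  cases l0 with
  | nil => simp [glued_none] at h
  | cons s' m =>
    rw [List.cons_append, Lab.run_cons, Lab.run_append, Lab.run_cons, Lab.run_nil, glued_none] at h
    set b := flag s.1 with hb
    set x1 : G := if s.2 then g s.1 else 1 with hx1
    have hrm : (glued g).run m (some (b, x1)) = some (b, word g m * x1) := by
      refine glued_run g m b x1 ?_
      intro k n hkn h1
      have h2 : (glued g).run (n ++ [s]) none = none := by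
        rw [Lab.run_append, Lab.run_cons, Lab.run_nil, glued_none]
        exact h1
      refine ih (n ++ [s]) ?_ (by simp) ?_ none h2
      · have h3 : Red ((s' :: k) ++ (n ++ [s])) := by
          have : (s' :: k) ++ (n ++ [s]) = s' :: m ++ [s] := by simp [hkn]
          rw [this]; exact hl
        exact red_of_append_right h3
      · simp [hkn]
    rw [hrm] at h
    rcases glued_some g s' b (word g m * x1) with h3 | h3
    · obtain ⟨h4, h5, -⟩ := h3
      have hi : s.1 = s'.1 := flag_inj h4
      rcases s with ⟨i, c⟩
      rcases s' with ⟨j, c'⟩
      simp only at hi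
      subst hi
      simp only at h5 hx1
      cases c <;> cases c' <;> simp only [if_true, if_false, Bool.false_eq_true] at h5 hx1
      · -- `s = s' = (i, false)`
        have h6 : word g ((i, false) :: m) = 1 := by
          rw [word]
          rw [hx1, mul_one] at h5
          simp [letg, h5]
        refine hG ((i, false) :: m) (red_of_append_left (m := [(i, false)]) hl) (by simp) ?_ h6
        simp at hK ⊢; omega
      · have h6 : word g m = 1 := by rwa [hx1, mul_one] at h5
        by_cases hm : m = []
        · subst hm
          exact hl.1 rfl
        · exact hG m (red_of_append_left (m := [(i, false)]) hl.tail) hm (by simp at hK ⊢; omega) h6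
      · have h6 : word g m = 1 := by
          rw [hx1] at h5
          simpa using h5
        by_cases hm : m = []
        · subst hm
          exact hl.1 rfl
        · exact hG m (red_of_append_left (m := [(i, true)]) hl.tail) hm (by simp at hK ⊢; omega) h6
      · have h6 : word g (m ++ [(i, true)]) = 1 := by
          rw [word_append]
          rw [hx1] at h5
          simpa [word, letg] using h5
        refine hG (m ++ [(i, true)]) hl.tail (by simp) ?_ h6
        simp at hK ⊢; omega
    · rw [h3.2] at h
      simp at h

lemma glued_free {K : ℕ} (hG : NoRel g K) : (glued g).Free K := by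
  have key : ∀ (n : ℕ) (l : List Let), l.length = n → Red l → l ≠ [] → l.length ≤ K → ∀ v,
      (glued g).run l v ≠ v := by
    intro n
    induction n using Nat.strong_induction_on with
    | _ n ih =>
      intro l hln hl hne hK v hv
      have ih' : ∀ m, Red m → m ≠ [] → m.length < l.length → ∀ v, (glued g).run m v ≠ v :=
        fun m h1 h2 h3 => ih m.length (by omega) m rfl h1 h2 (by omega)
      by_cases hz : ∃ l2 l1, l = l2 ++ l1 ∧ (glued g).run l1 v = none
      · obtain ⟨l2, l1, rfl, h1⟩ := hz
        have h2 : (glued g).run (l1 ++ l2) none = none := by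
          rw [Lab.run_append, ← h1]
          rw [Lab.run_append] at hv
          rw [hv]
        by_cases hr : Red (l1 ++ l2)
        · refine glued_at_none g hG (l1 ++ l2) hr ?_ (by simp at hK ⊢; omega) ?_ h2
          · intro h3
            simp only [List.append_eq_nil_iff] at h3
            exact hne (by rw [h3.1, h3.2]; rfl)
          · intro m h3 h4 h5
            exact ih' m h3 h4 (by simp at h5 ⊢; omega)
        · have h3 : ∃ s k t n, l1 = k ++ [s] ∧ l2 = t :: n ∧ s = inv t := by
            by_contra hcon
            push Not at hcon
            exact hr (red_append (red_of_append_right hl) (red_of_append_left hl)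
              (fun s k t n h4 h5 => hcon s k t n h4 h5))
          obtain ⟨s, k, t, m, rfl, rfl, rfl⟩ := h3
          have h4 : Red ((m ++ k) ++ [inv t]) := by
            have := hl
            rw [List.cons_append, ← List.append_assoc] at this
            exact this.tail
          have h5 : Red (m ++ k) := red_of_append_left h4
          have h6 : (glued g).run (m ++ k) ((glued g).act (inv t) v) = (glued g).act (inv t) v := by
            have h7 := congrArg ((glued g).act (inv t)) hv
            rw [List.cons_append, Lab.run_cons, Lab.act_inv_act, ← List.append_assoc,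
              Lab.run_append] at h7
            exact h7
          by_cases h8 : m ++ k = []
          · simp only [List.append_eq_nil_iff] at h8
            obtain ⟨rfl, rfl⟩ := h8
            exact hl.1 (by simp)
          · exact ih' (m ++ k) h5 h8 (by simp) _ h6
      · push Not at hz
        cases v with
        | none => exact hz l [] (by simp) rfl
        | some w =>
          obtain ⟨b, x⟩ := w
          have h1 := glued_run g l b x (fun k m hkm => hz k m hkm)
          rw [hv] at h1
          simp only [Option.some.injEq, Prod.mk.injEq, true_and] at h1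
          exact hG l hl hne hK (by simpa using h1.symm)
  exact fun l h1 h2 h3 => key l.length l rfl h1 h2 h3

lemma glued_step (s : Let) (b : Bool) (x : G) :
    ∃ m, (glued g).run m (some (b, x)) = some (b, letg g s * x) := by
  rcases glued_some g s b x with h | h
  · obtain ⟨rfl, rfl, h3⟩ := h
    refine ⟨[s, s], ?_⟩
    rw [Lab.run_cons, Lab.run_cons, Lab.run_nil, h3, glued_none]
    rcases s with ⟨i, c⟩
    cases c <;> simp [letg]
  · exact ⟨[s], h.2⟩

lemma glued_word (l : List Let) (b : Bool) (x : G) :
    ∃ m, (glued g).run m (some (b, x)) = some (b, word g l * x) := by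
  induction l with
  | nil => exact ⟨[], by simp [word]⟩
  | cons s l ih =>
    obtain ⟨m, hm⟩ := ih
    obtain ⟨k, hk⟩ := glued_step g s b (word g l * x)
    exact ⟨k ++ m, by rw [Lab.run_append, hm, hk, word, mul_assoc]⟩

lemma glued_trans (hg : Gen g) (u v : Option (Bool × G)) : ∃ l, (glued g).run l u = v := by
  have copy : ∀ b x y, ∃ l, (glued g).run l (some (b, x)) = some (b, y) := by
    intro b x y
    obtain ⟨l, hl⟩ := hg (y * x⁻¹)
    obtain ⟨m, hm⟩ := glued_word g l b x
    exact ⟨m, by rw [hm, hl]; simp⟩
  have comp : ∀ {u v w}, (∃ l, (glued g).run l u = v) → (∃ l, (glued g).run l v = w) →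
      ∃ l, (glued g).run l u = w := by
    rintro u v w ⟨l, rfl⟩ ⟨m, rfl⟩
    exact ⟨m ++ l, by rw [Lab.run_append]⟩
  have rev : ∀ {u v}, (∃ l, (glued g).run l u = v) → ∃ l, (glued g).run l v = u := by
    rintro u v ⟨l, rfl⟩
    exact ⟨winv l, by simp⟩
  have toNone : ∀ u, ∃ l, (glued g).run l u = none := by
    intro u
    cases u with
    | none => exact ⟨[], rfl⟩
    | some w =>
      obtain ⟨b, x⟩ := w
      obtain ⟨i, hi⟩ : ∃ i : Fin 2, flag i = b := by revert b; decide
      refine comp (copy b x 1) ⟨[(i, true)], ?_⟩
      rw [Lab.run_cons, Lab.run_nil]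
      rcases glued_some g (i, true) b 1 with h | h
      · exact h.2.2
      · exact absurd ⟨hi.symm, by simp⟩ h.1
  exact comp (toNone u) (rev (toNone v))

lemma glued_pow (n : ℕ) (x : G) :
    (glued g).run (List.replicate n (0, true)) (some (true, x)) = some (true, g 0 ^ n * x) := by
  induction n with
  | zero => simp
  | succ n ih =>
    rw [List.replicate_succ, Lab.run_cons, ih]
    rcases glued_some g (0, true) true (g 0 ^ n * x) with h | h
    · exact absurd h.1 (by decide)
    · rw [h.2, pow_succ']; simp [letg, mul_assoc]

lemma glued_cls {K n : ℕ} (h : NoRel g K) (hg : Gen g) (hn : Odd n) (hgn : g 0 ^ n = 1) :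
    Cls K (glued g) := by
  refine ⟨glued_free g h, ?_, ⟨none⟩⟩
  refine even_of (glued_trans g hg) (q := some (true, 1)) (o := List.replicate n (0, true))
    (by simpa using hn) ?_
  rw [glued_pow, hgn, one_mul]

lemma glued_connected {K : ℕ} (h : NoRel g K) (hK : 1 ≤ K) (hg : Gen g) :
    (glued g).graph.Connected := by
  refine ⟨fun x y => ?_⟩
  obtain ⟨l, rfl⟩ := glued_trans g hg x y
  exact reachable_run ((glued_free g h).mono hK) l x

lemma glued_not_two : ¬ TwoConnected (glued g).graph := by
  intro h
  have h1 := h none ⟨some (false, 1), by simp⟩ ⟨some (true, 1), by simp⟩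
  obtain ⟨w⟩ := h1
  have key : ∀ (u v : ({none}ᶜ : Set (Option (Bool × G))))
      (w : ((glued g).graph.induce ({none}ᶜ : Set (Option (Bool × G)))).Walk u v),
      u.1.map Prod.fst = v.1.map Prod.fst := by
    intro u v w
    induction w with
    | nil => rfl
    | @cons a b c hab _ ih =>
      rw [← ih]
      obtain ⟨a, ha⟩ := a
      obtain ⟨b, hb⟩ := b
      obtain ⟨-, s, hs⟩ : (glued g).graph.Adj a b := hab
      cases a with
      | none => exact absurd rfl ha
      | some a =>
        cases b with
        | none => exact absurd rfl hb
        | some b =>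
          rcases glued_some g s a.1 a.2 with h | h
          · rw [h.2.2] at hs
            exact absurd hs (by simp)
          · rw [h.2] at hs
            simp only [Option.some.injEq] at hs
            show (some a).map Prod.fst = (some b).map Prod.fst
            rw [← hs]; rfl
  have := key _ _ w
  simp at this

end Pool.Agent.Q220.TC
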