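import Pool.Agent.Q220.TC.Defs

set_option autoImplicit false

/-!
# Local isomorphisms
-/

namespace Pool.Agent.Q220.TC

variable {V V' : Type} {L : Lab V} {L' : Lab V'} {n : ℕ}

/-- `u` is within distance `r` of the tuple `p` -/
def Lab.NearT (L : Lab V) (r : ℕ) (p : Fin n → V) (u : V) : Prop := ∃ i, L.Near r (p i) u

/-- the data of a local isomorphism -/
structure IsIso (L : Lab V) (L' : Lab V') (r : ℕ) (p : Fin n → V) (p' : Fin n → V')
    (F : V → V' → Prop) : Prop where
  base : ∀ i, F (p i) (p' i)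
  uniq : ∀ {u u' v v'}, F u u' → F v v' → (u = v ↔ u' = v')
  adj : ∀ {u u' v v'}, F u u' → F v v' → (L.graph.Adj u v ↔ L'.graph.Adj u' v')
  dom : ∀ u, L.NearT r p u → ∃ u', F u u'
  cod : ∀ u', L'.NearT r p' u' → ∃ u, F u u'

/-- The balls of radius `r` around the two tuples are isomorphic. -/
def LocIso (L : Lab V) (L' : Lab V') (r : ℕ) (p : Fin n → V) (p' : Fin n → V') : Prop :=
  ∃ F, IsIso L L' r p p' F

lemma LocIso.symm {r : ℕ} {p : Fin n → V} {p' : Fin n → V'} (h : LocIso L L' r p p') :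
    LocIso L' L r p' p := by
  obtain ⟨F, hF⟩ := h
  exact ⟨fun u' u => F u u', fun i => hF.base i, fun h1 h2 => (hF.uniq h1 h2).symm,
    fun h1 h2 => (hF.adj h1 h2).symm, hF.cod, hF.dom⟩

lemma LocIso.mono {r s : ℕ} {p : Fin n → V} {p' : Fin n → V'} (h : LocIso L L' s p p')
    (hrs : r ≤ s) : LocIso L L' r p p' := by
  obtain ⟨F, hF⟩ := h
  exact ⟨F, hF.base, hF.uniq, hF.adj, fun u ⟨i, hi⟩ => hF.dom u ⟨i, hi.mono hrs⟩,
    fun u ⟨i, hi⟩ => hF.cod u ⟨i, hi.mono hrs⟩⟩

lemma IsIso.near {r : ℕ} {p : Fin n → V} {p' : Fin n → V'} {F : V → V' → Prop}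
    (hF : IsIso L L' r p p' F) (hL : L.Free 1) (hL' : L'.Free 1) {i : Fin n} {k : ℕ} {u : V}
    {u' : V'} (hk : k ≤ r) (hu : L.Near k (p i) u) (h : F u u') : L'.Near k (p' i) u' := by
  obtain ⟨l, h1, rfl⟩ := hu
  induction l generalizing u' k with
  | nil =>
    have := (hF.uniq (hF.base i) h).1 rfl
    exact ⟨[], by simp, this⟩
  | cons s l ih =>
    simp only [List.length_cons] at h1
    have h2 : L.NearT r p (L.run l (p i)) := ⟨i, l, by omega, rfl⟩
    obtain ⟨v', hv'⟩ := hF.dom _ h2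
    obtain ⟨m, h3, h4⟩ := ih (k := k - 1) (by omega) (by omega) hv'
    have h5 : L.graph.Adj (L.run l (p i)) (L.run (s :: l) (p i)) :=
      (Lab.adj_iff hL).2 ⟨s, rfl⟩
    have h6 := (hF.adj hv' h).1 h5
    obtain ⟨t, ht⟩ := (Lab.adj_iff hL').1 h6
    exact ⟨t :: m, by simp; omega, by rw [Lab.run_cons, h4, ht]⟩

/-! ### words and adjacency -/

/-- two words are adjacent -/
def LA (l m : List Let) : Prop := (∃ s, m = s :: l) ∨ (∃ s, l = s :: m)

lemma adj_run {g : ℕ} (hL : L.Free g) {l m : List Let} (hl : Red l) (hm : Red m)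
    (hg : l.length + m.length + 1 ≤ g) (x : V) :
    L.graph.Adj (L.run l x) (L.run m x) ↔ LA l m := by
  rw [Lab.adj_iff (hL.mono (by omega))]
  constructor
  · rintro ⟨s, hs⟩
    by_cases h : ∃ t k, l = t :: k ∧ s = inv t
    · obtain ⟨t, k, rfl, rfl⟩ := h
      right
      simp only [Lab.run_cons, Lab.act_inv_act] at hs
      simp only [List.length_cons] at hg
      exact ⟨t, by rw [hL.unique hl.tail hm (by omega) hs]⟩
    · left
      refine ⟨s, (hL.unique (l := s :: l) (v := x) ?_ hm (by simp; omega) hs).symm⟩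
      rw [red_cons_iff]
      exact ⟨hl, fun t k hk hst => h ⟨t, k, hk, hst⟩⟩
  · rintro (⟨s, rfl⟩ | ⟨s, rfl⟩)
    · exact ⟨s, rfl⟩
    · exact ⟨inv s, by simp⟩

/-- automorphisms of the tree of the reduced words fixing the root -/
structure TreeMap (τ : List Let → List Let) : Prop where
  len : ∀ l, (τ l).length = l.length
  red : ∀ l, Red l → Red (τ l)
  tail : ∀ s l, ∃ s', τ (s :: l) = s' :: τ l
  inj : Function.Injective τ
  surj : ∀ m, Red m → ∃ l, Red l ∧ τ l = m

lemma treeMap_id : TreeMap (fun l => l) :=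
  ⟨fun _ => rfl, fun _ h => h, fun s _ => ⟨s, rfl⟩, fun _ _ h => h, fun m h => ⟨m, h, rfl⟩⟩

lemma TreeMap.la {τ : List Let → List Let} (hτ : TreeMap τ) (l m : List Let) :
    LA (τ l) (τ m) ↔ LA l m := by
  have key : ∀ l m, (∃ s, τ m = s :: τ l) ↔ ∃ s, m = s :: l := by
    intro l m
    constructor
    · rintro ⟨s, hs⟩
      cases m with
      | nil => have := hτ.len []; rw [hs] at this; simp at this
      | cons t m =>
        obtain ⟨t', ht'⟩ := hτ.tail t m
        rw [ht'] at hs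
        simp only [List.cons.injEq] at hs
        exact ⟨t, by rw [hτ.inj hs.2]⟩
    · rintro ⟨s, rfl⟩
      exact hτ.tail s l
  unfold LA
  rw [key, key]

lemma tree_loc {τ : List Let → List Let} (hτ : TreeMap τ) {r R : ℕ} (hL : L.Free (2 * R + 1))
    (hL' : L'.Free (2 * R + 1)) (x : V) (x' : V') (w : Fin n → List Let) (hw : ∀ i, Red (w i))
    (hwl : ∀ i, (w i).length + r ≤ R) :
    LocIso L L' r (fun i => L.run (w i) x) (fun i => L'.run (τ (w i)) x') := by
  refine ⟨fun u u' => ∃ l, Red l ∧ l.length ≤ R ∧ u = L.run l x ∧ u' = L'.run (τ l) x',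
    ?_, ?_, ?_, ?_, ?_⟩
  · exact fun i => ⟨w i, hw i, by have := hwl i; omega, rfl, rfl⟩
  · rintro u u' v v' ⟨l, h1, h2, rfl, rfl⟩ ⟨m, h3, h4, rfl, rfl⟩
    constructor
    · intro h
      rw [hL.unique h1 h3 (by omega) h]
    · intro h
      have h5 := hL'.unique (hτ.red _ h1) (hτ.red _ h3) (by rw [hτ.len, hτ.len]; omega) h
      rw [hτ.inj h5]
  · rintro u u' v v' ⟨l, h1, h2, rfl, rfl⟩ ⟨m, h3, h4, rfl, rfl⟩
    rw [adj_run hL h1 h3 (by omega),
      adj_run hL' (hτ.red _ h1) (hτ.red _ h3) (by rw [hτ.len, hτ.len]; omega), hτ.la]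
  · rintro u ⟨i, k, h1, rfl⟩
    obtain ⟨m, h2, h3, h4⟩ := L.exists_red (k ++ w i) x
    refine ⟨_, m, h2, ?_, ?_, rfl⟩
    · have := hwl i
      simp at h3
      omega
    · rw [h4, Lab.run_append]
  · rintro u' ⟨i, k, h1, rfl⟩
    obtain ⟨m, h2, h3, h4⟩ := L'.exists_red (k ++ τ (w i)) x'
    obtain ⟨l, h5, rfl⟩ := hτ.surj m h2
    refine ⟨_, l, h5, ?_, rfl, ?_⟩
    · have := hwl i
      rw [hτ.len] at h3
      simp [hτ.len] at h3
      omega
    · rw [h4, Lab.run_append]

lemma glue {r : ℕ} {p : Fin n → V} {p' : Fin n → V'} (h : LocIso L L' r p p')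
    (hL : L.Free (2 * r + 1)) (hL' : L'.Free (2 * r + 1)) {b : V} {b' : V'}
    (hb : ¬ L.NearT (2 * r + 1) p b) (hb' : ¬ L'.NearT (2 * r + 1) p' b') :
    LocIso L L' r (Fin.cons b p : Fin (n + 1) → V) (Fin.cons b' p' : Fin (n + 1) → V') := by
  obtain ⟨F, hF⟩ := h
  obtain ⟨B, hB⟩ := tree_loc (n := 1) treeMap_id (r := r) hL hL' b b' (fun _ => [])
    (fun _ => trivial) (fun _ => by simp)
  have hL1 : L.Free 1 := hL.mono (by omega)
  have hL1' : L'.Free 1 := hL'.mono (by omega)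
  set F1 : V → V' → Prop := fun u u' => F u u' ∧ L.NearT r p u ∧ L'.NearT r p' u' with hF1
  set B1 : V → V' → Prop := fun u u' => B u u' ∧ L.Near r b u ∧ L'.Near r b' u' with hB1
  have far : ∀ {u u' v v'}, F1 u u' → B1 v v' →
      (u ≠ v ∧ u' ≠ v') ∧ ¬ L.graph.Adj u v ∧ ¬ L'.graph.Adj u' v' := by
    rintro u u' v v' ⟨-, ⟨i, hi⟩, ⟨j, hj⟩⟩ ⟨-, h3, h4⟩
    have a1 : ¬ L.Near 1 u v := by
      intro h
      exact hb ⟨i, ((hi.trans h).trans h3.symm).mono (by omega)⟩
    have a2 : ¬ L'.Near 1 u' v' := by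
      intro h
      exact hb' ⟨j, ((hj.trans h).trans h4.symm).mono (by omega)⟩
    refine ⟨⟨?_, ?_⟩, ?_, ?_⟩
    · rintro rfl; exact a1 (Lab.Near.refl _ _ _)
    · rintro rfl; exact a2 (Lab.Near.refl _ _ _)
    · intro h
      obtain ⟨s, hs⟩ := (Lab.adj_iff hL1).1 h
      exact a1 ⟨[s], by simp, hs⟩
    · intro h
      obtain ⟨s, hs⟩ := (Lab.adj_iff hL1').1 h
      exact a2 ⟨[s], by simp, hs⟩
  refine ⟨fun u u' => F1 u u' ∨ B1 u u', ?_, ?_, ?_, ?_, ?_⟩
  · intro i
    refine Fin.cases ?_ (fun j => ?_) i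
    · right
      exact ⟨hB.base 0, Lab.Near.refl _ _ _, Lab.Near.refl _ _ _⟩
    · left
      simp only [Fin.cons_succ]
      exact ⟨hF.base j, ⟨j, Lab.Near.refl _ _ _⟩, ⟨j, Lab.Near.refl _ _ _⟩⟩
  · rintro u u' v v' (h1 | h1) (h2 | h2)
    · exact hF.uniq h1.1 h2.1
    · have := (far h1 h2).1
      simp [this.1, this.2]
    · have := (far h2 h1).1
      simp [this.1.symm, this.2.symm]
    · exact hB.uniq h1.1 h2.1
  · rintro u u' v v' (h1 | h1) (h2 | h2)
    · exact hF.adj h1.1 h2.1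
    · have := (far h1 h2).2
      simp [this.1, this.2]
    · have := (far h2 h1).2
      rw [L.graph.adj_comm, L'.graph.adj_comm]
      simp [this.1, this.2]
    · exact hB.adj h1.1 h2.1
  · rintro u ⟨i, hi⟩
    revert hi
    refine Fin.cases ?_ (fun j => ?_) i
    · intro hi
      simp only [Fin.cons_zero] at hi
      obtain ⟨u', hu'⟩ := hB.dom u ⟨0, hi⟩
      exact ⟨u', Or.inr ⟨hu', hi, hB.near (i := 0) hL1 hL1' le_rfl hi hu'⟩⟩
    · intro hi
      simp only [Fin.cons_succ] at hi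
      obtain ⟨u', hu'⟩ := hF.dom u ⟨j, hi⟩
      exact ⟨u', Or.inl ⟨hu', ⟨j, hi⟩, ⟨j, hF.near hL1 hL1' le_rfl hi hu'⟩⟩⟩
  · rintro u' ⟨i, hi⟩
    have hFs : IsIso L' L r p' p (fun u' u => F u u') :=
      ⟨fun i => hF.base i, fun h1 h2 => (hF.uniq h1 h2).symm,
        fun h1 h2 => (hF.adj h1 h2).symm, hF.cod, hF.dom⟩
    have hBs : IsIso L' L r (fun _ : Fin 1 => b') (fun _ : Fin 1 => b) (fun u' u => B u u') :=
      ⟨fun i => hB.base i, fun h1 h2 => (hB.uniq h1 h2).symm,
        fun h1 h2 => (hB.adj h1 h2).symm, hB.cod, hB.dom⟩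
    revert hi
    refine Fin.cases ?_ (fun j => ?_) i
    · intro hi
      simp only [Fin.cons_zero] at hi
      obtain ⟨u, hu⟩ := hB.cod u' ⟨0, hi⟩
      exact ⟨u, Or.inr ⟨hu, hBs.near (i := 0) hL1' hL1 le_rfl hi hu, hi⟩⟩
    · intro hi
      simp only [Fin.cons_succ] at hi
      obtain ⟨u, hu⟩ := hF.cod u' ⟨j, hi⟩
      exact ⟨u, Or.inl ⟨hu, ⟨j, hFs.near hL1' hL1 le_rfl hi hu⟩, ⟨j, hi⟩⟩⟩

/-! ### many points -/

lemma red_replicate (c : Let) (j : ℕ) : Red (List.replicate j c) := by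
  induction j with
  | zero => trivial
  | succ j ih =>
    rw [List.replicate_succ, red_cons_iff]
    refine ⟨ih, ?_⟩
    intro t m h
    have : t = c := by
      have : t ∈ List.replicate j c := by rw [h]; simp
      exact List.eq_of_mem_replicate this
    subst this
    exact (inv_ne t).symm

lemma exists_notMem {K : ℕ} (hL : L.Free K) (v : V) (T : Finset V) (hT : T.card ≤ K) :
    ∃ b, b ∉ T := by
  classical
  by_contra hcon
  push Not at hcon
  have h1 : Set.InjOn (fun j : ℕ => L.run (List.replicate j (0, true)) v)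
      (Finset.range (K + 1) : Set ℕ) := by
    have key : ∀ i j : ℕ, i < j → j ≤ K → L.run (List.replicate i (0, true)) v ≠
        L.run (List.replicate j (0, true)) v := by
      intro i j hij hj h
      have h2 : List.replicate j ((0, true) : Let) =
          List.replicate (j - i) (0, true) ++ List.replicate i (0, true) := by
        rw [← List.replicate_add]; congr 1; omega
      rw [h2, Lab.run_append] at h
      refine hL (List.replicate (j - i) (0, true)) (red_replicate _ _) ?_ ?_ _ h.symm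
      · simp; omega
      · simp; omega
    intro i hi j hj h
    simp only [Finset.coe_range, Set.mem_Iio] at hi hj
    rcases lt_trichotomy i j with h2 | h2 | h2
    · exact absurd h (key i j h2 (by omega))
    · exact h2
    · exact absurd h.symm (key j i h2 (by omega))
  have h2 : ((Finset.range (K + 1)).image fun j : ℕ => L.run (List.replicate j (0, true)) v).card
      = K + 1 := by
    rw [Finset.card_image_of_injOn h1, Finset.card_range]
  have h3 := Finset.card_le_card (s := (Finset.range (K + 1)).image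
    fun j : ℕ => L.run (List.replicate j (0, true)) v) (t := T) (fun x _ => hcon x)
  omega

/-- the words of length at most `r` -/
noncomputable def words (r : ℕ) : Finset (List Let) := (List.finite_length_le Let r).toFinset

lemma mem_words {r : ℕ} {l : List Let} : l ∈ words r ↔ l.length ≤ r := by simp [words]

lemma exists_far {K r : ℕ} (hL : L.Free K) (v : V) (p : Fin n → V)
    (hK : n * (words r).card ≤ K) : ∃ b, ¬ L.NearT r p b := by
  classical
  obtain ⟨b, hb⟩ := exists_notMem hL v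
    ((Finset.univ ×ˢ words r).image fun q : Fin n × List Let => L.run q.2 (p q.1)) (by
      refine Finset.card_image_le.trans ?_
      rw [Finset.card_product]
      simpa using hK)
  refine ⟨b, ?_⟩
  rintro ⟨i, l, hl, rfl⟩
  refine hb (Finset.mem_image.2 ⟨(i, l), ?_, rfl⟩)
  simp [mem_words, hl]

/-- the extension property -/
lemma extend {r K : ℕ} {p : Fin n → V} {p' : Fin n → V'} (h : LocIso L L' (3 * r + 1) p p')
    (hL : L.Free K) (hL' : L'.Free K) (hr : 2 * r + 1 ≤ K)
    (hK : n * (words (2 * r + 1)).card ≤ K) (v' : V') (b : V) :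
    ∃ b', LocIso L L' r (Fin.cons b p : Fin (n + 1) → V) (Fin.cons b' p' : Fin (n + 1) → V') := by
  by_cases hb : L.NearT (2 * r + 1) p b
  · obtain ⟨F, hF⟩ := h
    obtain ⟨i, hi⟩ := hb
    obtain ⟨b', hb'⟩ := hF.dom b ⟨i, hi.mono (by omega)⟩
    have hn' : L'.Near (2 * r + 1) (p' i) b' :=
      hF.near (hL.mono (by omega)) (hL'.mono (by omega)) (by omega) hi hb'
    refine ⟨b', F, ?_, hF.uniq, hF.adj, ?_, ?_⟩
    · intro j
      refine Fin.cases hb' (fun k => ?_) j
      simpa using hF.base k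
    · rintro u ⟨j, hj⟩
      revert hj
      refine Fin.cases ?_ (fun k => ?_) j
      · intro hj
        exact hF.dom u ⟨i, (hi.trans hj).mono (by omega)⟩
      · intro hj
        exact hF.dom u ⟨k, hj.mono (by omega)⟩
    · rintro u ⟨j, hj⟩
      revert hj
      refine Fin.cases ?_ (fun k => ?_) j
      · intro hj
        exact hF.cod u ⟨i, (hn'.trans hj).mono (by omega)⟩
      · intro hj
        exact hF.cod u ⟨k, hj.mono (by omega)⟩
  · obtain ⟨b', hb'⟩ := exists_far hL' v' p' hK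
    exact ⟨b', glue (h.mono (by omega)) (hL.mono hr) (hL'.mono hr) hb hb'⟩

end Pool.Agent.Q220.TC
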