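import Pool.Agent.Q220.TC.Tree

set_option autoImplicit false

/-!
# Formulas of the logic without parameters see only the balls
-/

namespace Pool.Agent.Q220.TC

/-- the class of the labelled graphs considered -/
structure Cls {V : Type} (K : ℕ) (L : Lab V) : Prop where
  free : L.Free K
  even : ∀ x y : V, ∃ l : List Let, Even l.length ∧ L.run l x = y
  nonempty : Nonempty V

lemma Cls.mono {V : Type} {K K' : ℕ} {L : Lab V} (h : Cls K' L) (hK : K ≤ K') : Cls K L :=
  ⟨h.free.mono hK, h.even, h.nonempty⟩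

/-- the relation defined by a formula -/
def Rel {V : Type} (L : Lab V) (θ : Fml 2) (x y : V) : Prop := Sat L.graph θ ![x, y]

section tc

variable {K r : ℕ} {θ : Fml 2}

/-- what is known about the inner formula -/
def Inner (K r : ℕ) (θ : Fml 2) : Prop :=
  ∀ (V V' : Type) (L : Lab V) (L' : Lab V'), Cls K L → Cls K L' → ∀ (p : Fin 2 → V) (p' : Fin 2 → V'),
    LocIso L L' r p p' → (Sat L.graph θ p ↔ Sat L'.graph θ p')

variable {V V' : Type} {L : Lab V} {L' : Lab V'}

lemma Inner.near (h : Inner K r θ) (hL : Cls K L) (hL' : Cls K L') {w w' : List Let}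
    (hK : 2 * (2 * r + 1 + r) + 1 ≤ K) (hw : Red w)
    (hw' : Red w') (hl : w.length = w'.length) (hlr : w.length ≤ 2 * r + 1) (x : V) (x' : V') :
    Rel L θ x (L.run w x) ↔ Rel L' θ x' (L'.run w' x') :=
  h V V' L L' hL hL' _ _ (pair_near hw hw' hl (hL.free.mono (by omega)) (hL'.free.mono (by omega))
    x x')

lemma Inner.far (h : Inner K r θ) (hL : Cls K L) (hL' : Cls K L')
    (hK : 2 * (2 * r + 1 + r) + 1 ≤ K) {x y : V} {x' y' : V'}
    (hf : ¬ L.Near (2 * r + 1) x y) (hf' : ¬ L'.Near (2 * r + 1) x' y') :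
    Rel L θ x y ↔ Rel L' θ x' y' :=
  h V V' L L' hL hL' _ _ (pair_far (hL.free.mono (by omega)) (hL'.free.mono (by omega)) hf hf')

lemma trans_far (hL : Cls K L) (hK : 2 * (words (2 * r + 1)).card ≤ K)
    (h : ∀ x y, ¬ L.Near (2 * r + 1) x y → Rel L θ x y) (x y : V) :
    Relation.TransGen (Rel L θ) x y := by
  obtain ⟨u, hu⟩ := exists_far (n := 2) hL.free x ![x, y] hK
  have h1 : ¬ L.Near (2 * r + 1) x u := fun h => hu ⟨0, h⟩
  have h2 : ¬ L.Near (2 * r + 1) u y := fun h => hu ⟨1, h.symm⟩
  exact (Relation.TransGen.single (h x u h1)).tail (h u y h2)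

lemma exists_third (s t : Let) : ∃ c : Let, c ≠ s ∧ c ≠ t := by
  revert s t; decide

lemma trans_near (hL : Cls K L) {k : ℕ} (hk : 1 ≤ k)
    (h : ∀ w, Red w → w.length = k → ∀ x, Rel L θ x (L.run w x)) (x y : V) :
    Relation.TransGen (Rel L θ) x y := by
  have two : ∀ s t x, Relation.TransGen (Rel L θ) x (L.run [s, t] x) := by
    intro s t x
    obtain ⟨c, hc1, hc2⟩ := exists_third (inv t) s
    set u := List.replicate (k - 1) c with hu
    have hru : Red u := red_replicate _ _
    have hfirst : ∀ d, c ≠ inv d → Red (u ++ [d]) := by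
      intro d hd
      refine red_append hru trivial ?_
      intro a b e f h1 h2
      simp only [List.cons.injEq] at h2
      obtain ⟨rfl, -⟩ := h2
      have : a = c := by
        have : a ∈ u := by rw [h1]; simp
        exact List.eq_of_mem_replicate this
      rw [this]; exact hd
    have h1 := h (u ++ [t]) (hfirst t hc1) (by simp [hu]; omega) x
    have h2 := h (winv (u ++ [inv s])) (red_winv (hfirst (inv s) (by rwa [inv_inv])))
      (by simp [hu]; omega) (L.run (u ++ [inv s]) (L.run [s, t] x))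
    rw [Lab.run_winv_run] at h2
    have h3 : L.run (u ++ [inv s]) (L.run [s, t] x) = L.run (u ++ [t]) x := by
      rw [Lab.run_append, Lab.run_append]
      simp
    rw [h3] at h2
    exact (Relation.TransGen.single h1).tail h2
  have many : ∀ (j : ℕ) (l : List Let), l.length = 2 * (j + 1) → ∀ x,
      Relation.TransGen (Rel L θ) x (L.run l x) := by
    intro j
    induction j with
    | zero =>
      intro l hl x
      match l, hl with
      | [s, t], _ => exact two s t x
    | succ j ih =>
      intro l hl x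
      match l, hl with
      | s :: t :: l, hl =>
        have h1 := ih l (by simp at hl; omega) x
        have h2 := two s t (L.run l x)
        exact h1.trans h2
  obtain ⟨l, ⟨j, hj⟩, rfl⟩ := hL.even x y
  cases j with
  | zero =>
    have : l = [] := List.length_eq_zero_iff.1 (by omega)
    subst this
    have := two (inv (0, true)) (0, true) x
    simpa using this
  | succ j => exact many j l (by omega) x

/-- The transitive closure of a definable relation is trivial, in the same way in all members of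
the class. -/
lemma Inner.tc (h : Inner K r θ) (hK : 2 * (2 * r + 1 + r) + 1 ≤ K)
    (hK' : 2 * (words (2 * r + 1)).card ≤ K) (hL : Cls K L) (hL' : Cls K L') {x y : V} {x' y' : V'}
    (hxy : x = y ↔ x' = y') :
    Relation.TransGen (Rel L θ) x y ↔ Relation.TransGen (Rel L' θ) x' y' := by
  by_cases hA : ∃ (W : Type) (M : Lab W), Cls K M ∧ ∃ a b, ¬ M.Near (2 * r + 1) a b ∧ Rel M θ a b
  · obtain ⟨W, M, hM, a, b, h1, h2⟩ := hA
    have h3 : Relation.TransGen (Rel L θ) x y :=
      trans_far hL hK' (fun u v huv => (h.far hM hL hK h1 huv).1 h2) x y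
    have h4 : Relation.TransGen (Rel L' θ) x' y' :=
      trans_far hL' hK' (fun u v huv => (h.far hM hL' hK h1 huv).1 h2) x' y'
    exact ⟨fun _ => h4, fun _ => h3⟩
  by_cases hB : ∃ (W : Type) (M : Lab W), Cls K M ∧ ∃ w a, Red w ∧ 1 ≤ w.length ∧
      w.length ≤ 2 * r + 1 ∧ Rel M θ a (M.run w a)
  · obtain ⟨W, M, hM, w, a, h1, h2, h3, h4⟩ := hB
    have h5 : Relation.TransGen (Rel L θ) x y :=
      trans_near hL h2 (fun w' hw' hl u => (h.near hM hL hK h1 hw' hl.symm h3 a u).1 h4) x y
    have h6 : Relation.TransGen (Rel L' θ) x' y' :=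
      trans_near hL' h2 (fun w' hw' hl u => (h.near hM hL' hK h1 hw' hl.symm h3 a u).1 h4) x' y'
    exact ⟨fun _ => h6, fun _ => h5⟩
  have small : ∀ (W : Type) (M : Lab W), Cls K M → ∀ a b, Rel M θ a b → a = b := by
    intro W M hM a b hab
    by_contra hne
    by_cases hn : M.Near (2 * r + 1) a b
    · obtain ⟨w, h1, h2, rfl⟩ := hn.red
      refine hB ⟨W, M, hM, w, a, h1, ?_, h2, hab⟩
      cases w with
      | nil => exact absurd rfl hne
      | cons s w => simp
    · exact hA ⟨W, M, hM, a, b, hn, hab⟩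
  have smallT : ∀ (W : Type) (M : Lab W), Cls K M → ∀ a b, Relation.TransGen (Rel M θ) a b →
      a = b ∧ Rel M θ a a := by
    intro W M hM a b hab
    induction hab with
    | single h1 =>
      have := small W M hM _ _ h1
      subst this
      exact ⟨rfl, h1⟩
    | tail h1 h2 ih =>
      have := small W M hM _ _ h2
      subst this
      exact ih
  constructor
  · intro h1
    obtain ⟨h2, h3⟩ := smallT V L hL _ _ h1
    have h4 := hxy.1 h2
    subst h4
    refine Relation.TransGen.single ?_
    exact (h.near (w := []) (w' := []) hL hL' hK trivial trivial rfl (by simp) x x').1 h3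
  · intro h1
    obtain ⟨h2, h3⟩ := smallT V' L' hL' _ _ h1
    have h4 := hxy.2 h2
    subst h4
    refine Relation.TransGen.single ?_
    exact (h.near (w := []) (w' := []) hL hL' hK trivial trivial rfl (by simp) x x').2 h3

end tc

/-- **Main theorem.** -/
theorem local_formula {n : ℕ} (φ : Fml n) : ∃ K r : ℕ, ∀ (V V' : Type) (L : Lab V) (L' : Lab V'),
    Cls K L → Cls K L' → ∀ (p : Fin n → V) (p' : Fin n → V'), LocIso L L' r p p' →
      (Sat L.graph φ p ↔ Sat L'.graph φ p') := by
  induction φ with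
  | eq i j =>
    refine ⟨0, 0, fun V V' L L' _ _ p p' ⟨F, hF⟩ => ?_⟩
    exact hF.uniq (hF.base i) (hF.base j)
  | adj i j =>
    refine ⟨0, 0, fun V V' L L' _ _ p p' ⟨F, hF⟩ => ?_⟩
    exact hF.adj (hF.base i) (hF.base j)
  | falsum => exact ⟨0, 0, fun V V' L L' _ _ p p' _ => Iff.rfl⟩
  | imp φ ψ ih1 ih2 =>
    obtain ⟨K1, r1, h1⟩ := ih1
    obtain ⟨K2, r2, h2⟩ := ih2
    refine ⟨max K1 K2, max r1 r2, fun V V' L L' hL hL' p p' h => ?_⟩
    have e1 := h1 V V' L L' (hL.mono (le_max_left _ _)) (hL'.mono (le_max_left _ _)) p p'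
      (h.mono (le_max_left _ _))
    have e2 := h2 V V' L L' (hL.mono (le_max_right _ _)) (hL'.mono (le_max_right _ _)) p p'
      (h.mono (le_max_right _ _))
    show (_ → _) ↔ (_ → _)
    rw [e1, e2]
  | all φ ih =>
    rename_i n
    obtain ⟨K1, r1, h1⟩ := ih
    refine ⟨K1 + (2 * r1 + 1) + n * (words (2 * r1 + 1)).card, 3 * r1 + 1,
      fun V V' L L' hL hL' p p' h => ?_⟩
    have hL1 := hL.mono (K := K1) (by omega)
    have hL1' := hL'.mono (K := K1) (by omega)
    constructor
    · intro h2 b'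
      obtain ⟨v⟩ := hL.nonempty
      obtain ⟨b, hb⟩ := extend h.symm hL'.free hL.free (by omega) (by omega) v b'
      exact (h1 V V' L L' hL1 hL1' _ _ hb.symm).1 (h2 b)
    · intro h2 b
      obtain ⟨v'⟩ := hL'.nonempty
      obtain ⟨b', hb⟩ := extend h hL.free hL'.free (by omega) (by omega) v' b
      exact (h1 V V' L L' hL1 hL1' _ _ hb).2 (h2 b')
  | tc φ i j ih =>
    obtain ⟨K1, r1, h1⟩ := ih
    set K := K1 + (2 * (2 * r1 + 1 + r1) + 1) + 2 * (words (2 * r1 + 1)).card with hK
    have hin : Inner K r1 φ := fun V V' L L' hL hL' p p' h =>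
      h1 V V' L L' (hL.mono (by omega)) (hL'.mono (by omega)) p p' h
    refine ⟨K, 0, fun V V' L L' hL hL' p p' ⟨F, hF⟩ => ?_⟩
    exact hin.tc (by omega) (by omega) hL hL' (hF.uniq (hF.base i) (hF.base j))

/-- sentences do not distinguish the members of the class -/
theorem sentence_iff (ψ : Fml 0) : ∃ K : ℕ, ∀ (V V' : Type) (L : Lab V) (L' : Lab V'),
    Cls K L → Cls K L' → ∀ (p : Fin 0 → V) (p' : Fin 0 → V'),
      (Sat L.graph ψ p ↔ Sat L'.graph ψ p') := by
  obtain ⟨K, r, h⟩ := local_formula ψ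
  refine ⟨K, fun V V' L L' hL hL' p p' => h V V' L L' hL hL' p p' ?_⟩
  refine ⟨fun _ _ => False, fun i => i.elim0, fun h => h.elim, fun h => h.elim, ?_, ?_⟩
  · rintro u ⟨i, -⟩; exact i.elim0
  · rintro u ⟨i, -⟩; exact i.elim0

end Pool.Agent.Q220.TC
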