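import Pool.Agent.Q220.TC.Local

set_option autoImplicit false

/-!
# The automorphisms of the tree act transitively on the spheres
-/

namespace Pool.Agent.Q220.TC

/-- the conditions on the permutation of the letters at the node `l`, with image `m` -/
def Good (w w' l m : List Let) (π : Equiv.Perm Let) : Prop :=
  (∀ c t c' t', l = c :: t → m = c' :: t' → π (inv c) = inv c') ∧
  (∀ c c', (c :: l) <:+ w → (c' :: m) <:+ w' → π c = c')

lemma two_point {a b a' b' : Let} (h : a ≠ b) (h' : a' ≠ b') :
    ∃ π : Equiv.Perm Let, π a = a' ∧ π b = b' := by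
  refine ⟨(Equiv.swap a a').trans (Equiv.swap (Equiv.swap a a' b) b'), ?_, ?_⟩
  · simp only [Equiv.trans_apply, Equiv.swap_apply_left]
    refine Equiv.swap_apply_of_ne_of_ne ?_ h'
    intro h1
    have : Equiv.swap a a' a = Equiv.swap a a' b := by rw [Equiv.swap_apply_left]; exact h1
    exact h ((Equiv.swap a a').injective this)
  · simp

lemma suffix_unique {w l : List Let} {c d : Let} (h1 : (c :: l) <:+ w) (h2 : (d :: l) <:+ w) :
    c = d := by
  have h3 : (c :: l) <:+ (d :: l) := List.suffix_of_suffix_length_le h1 h2 (by simp)
  have h4 := h3.eq_of_length (by simp)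
  simpa using h4

lemma red_of_suffix {l w : List Let} (h : l <:+ w) (hw : Red w) : Red l := by
  obtain ⟨k, rfl⟩ := h
  exact red_of_append_right hw

lemma exists_good {w w' l m : List Let} (hw : Red w) (hw' : Red w') (hlm : l.length = m.length) :
    ∃ π, Good w w' l m π := by
  cases l with
  | nil =>
    have hm : m = [] := by simpa using hlm.symm
    subst hm
    by_cases h : ∃ c c', ([c] <:+ w) ∧ ([c'] <:+ w')
    · obtain ⟨c, c', h1, h2⟩ := h
      refine ⟨Equiv.swap c c', fun c t c' t' h => by simp at h, ?_⟩
      intro d d' h3 h4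
      rw [suffix_unique h3 h1, suffix_unique h4 h2]
      simp
    · refine ⟨1, fun c t c' t' h => by simp at h, ?_⟩
      intro d d' h3 h4
      exact absurd ⟨d, d', h3, h4⟩ h
  | cons c0 t =>
    cases m with
    | nil => simp at hlm
    | cons c0' t' =>
      by_cases h : ∃ c c', ((c :: c0 :: t) <:+ w) ∧ ((c' :: c0' :: t') <:+ w')
      · obtain ⟨c, c', h1, h2⟩ := h
        have h3 : c ≠ inv c0 := (red_of_suffix h1 hw).1
        have h4 : c' ≠ inv c0' := (red_of_suffix h2 hw').1
        obtain ⟨π, h5, h6⟩ := two_point h3 h4
        refine ⟨π, ?_, ?_⟩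
        · rintro a b a' b' h7 h8
          simp only [List.cons.injEq] at h7 h8
          rw [← h7.1, ← h8.1, h6]
        · intro d d' h7 h8
          rw [suffix_unique h7 h1, suffix_unique h8 h2, h5]
      · refine ⟨Equiv.swap (inv c0) (inv c0'), ?_, ?_⟩
        · rintro a b a' b' h7 h8
          simp only [List.cons.injEq] at h7 h8
          rw [← h7.1, ← h8.1]
          simp
        · intro d d' h3 h4
          exact absurd ⟨d, d', h3, h4⟩ h

open Classical in
/-- the permutation of the letters at the node `l`, with image `m` -/
noncomputable def pick (w w' l m : List Let) : Equiv.Perm Let :=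
  if h : ∃ π, Good w w' l m π then h.choose else 1

lemma good_pick {w w' l m : List Let} (hw : Red w) (hw' : Red w') (hlm : l.length = m.length) :
    Good w w' l m (pick w w' l m) := by
  have h := exists_good hw hw' hlm
  unfold pick
  rw [dif_pos h]
  exact h.choose_spec

/-- an automorphism of the tree which maps `w` to `w'` -/
noncomputable def tau (w w' : List Let) : List Let → List Let
  | [] => []
  | s :: l => pick w w' l (tau w w' l) s :: tau w w' l

lemma tau_length (w w' l : List Let) : (tau w w' l).length = l.length := by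
  induction l with
  | nil => rfl
  | cons s l ih => simp [tau, ih]

lemma tau_inj (w w' : List Let) : Function.Injective (tau w w') := by
  intro l
  induction l with
  | nil =>
    intro m h
    cases m with
    | nil => rfl
    | cons t m => simp [tau] at h
  | cons s l ih =>
    intro m h
    cases m with
    | nil => simp [tau] at h
    | cons t m =>
      simp only [tau, List.cons.injEq] at h
      have h1 := ih h.2
      subst h1
      rw [(pick w w' l (tau w w' l)).injective h.1]

lemma tau_red {w w' : List Let} (hw : Red w) (hw' : Red w') (l : List Let) (hl : Red l) :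
    Red (tau w w' l) := by
  induction l with
  | nil => trivial
  | cons s l ih =>
    have h1 := ih hl.tail
    rw [tau, red_cons_iff]
    refine ⟨h1, ?_⟩
    intro c' t' h2
    have hg := good_pick (l := l) (m := tau w w' l) hw hw' (tau_length w w' l).symm
    cases l with
    | nil => simp [tau] at h2
    | cons c t =>
      have h3 := hg.1 c t c' t' rfl h2
      rw [← h3]
      intro h4
      exact hl.1 ((pick w w' (c :: t) (tau w w' (c :: t))).injective h4)

lemma tau_surj {w w' : List Let} (hw : Red w) (hw' : Red w') (m : List Let) (hm : Red m) :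
    ∃ l, Red l ∧ tau w w' l = m := by
  induction m with
  | nil => exact ⟨[], trivial, rfl⟩
  | cons s m ih =>
    obtain ⟨l, h1, rfl⟩ := ih hm.tail
    have hg := good_pick (l := l) (m := tau w w' l) hw hw' (tau_length w w' l).symm
    refine ⟨(pick w w' l (tau w w' l)).symm s :: l, ?_, by simp [tau]⟩
    rw [red_cons_iff]
    refine ⟨h1, ?_⟩
    rintro c t rfl h2
    have h3 : tau w w' (c :: t) = pick w w' t (tau w w' t) c :: tau w w' t := rfl
    have h4 := hg.1 c t _ _ rfl h3
    rw [Equiv.symm_apply_eq] at h2
    rw [h4] at h2
    rw [h3] at hm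
    exact hm.1 h2

lemma tau_maps {w w' : List Let} (hw : Red w) (hw' : Red w') (l l' : List Let) (hl : l <:+ w)
    (hl' : l' <:+ w') (h : l.length = l'.length) : tau w w' l = l' := by
  induction l generalizing l' with
  | nil => simp at h; simp [tau, List.length_eq_zero_iff.1 h.symm]
  | cons c l ih =>
    cases l' with
    | nil => simp at h
    | cons c' l' =>
      have h1 := ih l' ((List.suffix_cons c l).trans hl) ((List.suffix_cons c' l').trans hl')
        (by simpa using h)
      have hg := good_pick (l := l) (m := l') hw hw' (by simpa using h)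
      rw [tau, h1, hg.2 c c' hl hl']

lemma treeMap_tau {w w' : List Let} (hw : Red w) (hw' : Red w') : TreeMap (tau w w') :=
  ⟨tau_length w w', tau_red hw hw', fun _ _ => ⟨_, rfl⟩, tau_inj w w', tau_surj hw hw'⟩

variable {V V' : Type} {L : Lab V} {L' : Lab V'}

/-- pairs at the same small distance look the same -/
lemma pair_near {r : ℕ} {w w' : List Let} (hw : Red w) (hw' : Red w') (h : w.length = w'.length)
    (hL : L.Free (2 * (w.length + r) + 1)) (hL' : L'.Free (2 * (w.length + r) + 1)) (x : V)
    (x' : V') : LocIso L L' r ![x, L.run w x] ![x', L'.run w' x'] := by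
  have h1 := tree_loc (n := 2) (treeMap_tau hw hw') (r := r) hL hL' x x' ![[], w]
    (fun i => by fin_cases i <;> simp [hw, Red]) (fun i => by fin_cases i <;> simp)
  have h2 : (fun i => L.run ((![[], w] : Fin 2 → List Let) i) x) = ![x, L.run w x] := by
    funext i; fin_cases i <;> rfl
  have h3 : (fun i => L'.run (tau w w' ((![[], w] : Fin 2 → List Let) i)) x') =
      ![x', L'.run w' x'] := by
    have h4 := tau_maps hw hw' w w' (List.suffix_refl _) (List.suffix_refl _) h
    funext i; fin_cases i <;> simp [tau, h4]
  rwa [h2, h3] at h1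

/-- pairs at large distance look the same -/
lemma pair_far {r : ℕ} (hL : L.Free (2 * r + 1)) (hL' : L'.Free (2 * r + 1)) {x y : V} {x' y' : V'}
    (h : ¬ L.Near (2 * r + 1) x y) (h' : ¬ L'.Near (2 * r + 1) x' y') :
    LocIso L L' r ![x, y] ![x', y'] := by
  have h1 := tree_loc (n := 1) treeMap_id (r := r) (R := r) hL hL' y y' (fun _ => [])
    (fun _ => trivial) (fun _ => by simp)
  have h2 := glue h1 hL hL' (b := x) (b' := x') ?_ ?_
  · have h3 : (Fin.cons x (fun i : Fin 1 => L.run [] y) : Fin 2 → V) = ![x, y] := by
      funext i; fin_cases i <;> rfl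
    have h4 : (Fin.cons x' (fun i : Fin 1 => L'.run [] y') : Fin 2 → V') = ![x', y'] := by
      funext i; fin_cases i <;> rfl
    rwa [h3, h4] at h2
  · rintro ⟨i, hi⟩
    exact h hi.symm
  · rintro ⟨i, hi⟩
    exact h' hi.symm

end Pool.Agent.Q220.TC
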